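import Pool.Agent.H743.JL.StmY

/-!
# JX-NB2: matrix and split form
-/

set_option autoImplicit false
set_option linter.all false

open scoped Classical

namespace Pool.Agent.H307.JXNB2

open Finset Module
open Pool.Agent.H743.JL
open Pool.Agent.N916.MO

theorem bh_apply {V : Type} [Fintype V] [DecidableEq V] (v0 : V) (L : V → V → ZMod 2)
    (z z' : (V → ZMod 2) × (V → ZMod 2)) : Bh v0 L z z' =
      ∑ i, ∑ j, L i j * (z'.1 i * z.2 j + z.1 i * z'.2 j) + z.1 v0 * z'.2 v0 + z.2 v0 * z'.1 v0 := by
  have e : SL (fun _ => 0) (fun _ => 0) L z z' =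
      ∑ i, (0 : ZMod 2) * (z.1 i * z'.1 i) + ∑ i, ∑ j, L i j * (z'.1 i * z.2 j + z.1 i * z'.2 j) +
      ∑ j, (0 : ZMod 2) * (z.2 j * z'.2 j) := rfl
  have e2 : Bh v0 L z z' = SL (fun _ => 0) (fun _ => 0) L z z' + z.1 v0 * z'.2 v0 + z.2 v0 * z'.1 v0 := rfl
  rw [e2, e]
  simp only [zero_mul, sum_const_zero, zero_add, add_zero]

theorem bh_left {V : Type} [Fintype V] [DecidableEq V] (v0 : V) (L : V → V → ZMod 2)
    (z : (V → ZMod 2) × (V → ZMod 2)) (i : V) : Bh v0 L z (Pi.single i 1, 0) =
      ∑ j, L i j * z.2 j + (if i = v0 then z.2 v0 else 0) := by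
  rw [bh_apply]
  have e : ∑ i', ∑ j, L i' j * ((Pi.single i (1 : ZMod 2) : V → ZMod 2) i' * z.2 j +
      z.1 i' * (0 : V → ZMod 2) j) = ∑ j, L i j * z.2 j := by
    rw [sum_eq_single i]
    · exact sum_congr rfl fun j _ => by simp
    · intro i' _ hi'
      exact sum_eq_zero fun j _ => by simp [Pi.single_eq_of_ne hi']
    · intro h; exact absurd (mem_univ _) h
  dsimp only
  rw [e, Pi.zero_apply, mul_zero, add_zero]
  congr 1
  by_cases h : i = v0
  · subst h; simp
  · rw [if_neg h, Pi.single_eq_of_ne (Ne.symm h), mul_zero]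

theorem bh_right {V : Type} [Fintype V] [DecidableEq V] (v0 : V) (L : V → V → ZMod 2)
    (z : (V → ZMod 2) × (V → ZMod 2)) (j : V) : Bh v0 L z (0, Pi.single j 1) =
      ∑ i, z.1 i * L i j + (if j = v0 then z.1 v0 else 0) := by
  rw [bh_apply]
  have e : ∑ i, ∑ j', L i j' * ((0 : V → ZMod 2) i * z.2 j' +
      z.1 i * (Pi.single j (1 : ZMod 2) : V → ZMod 2) j') = ∑ i, z.1 i * L i j := by
    refine sum_congr rfl fun i _ => ?_
    rw [sum_eq_single j]
    · rw [Pi.single_eq_same, Pi.zero_apply]; ring
    · intro j' _ hj'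
      rw [Pi.single_eq_of_ne hj', Pi.zero_apply]; ring
    · intro h; exact absurd (mem_univ _) h
  dsimp only
  rw [e, Pi.zero_apply, mul_zero, add_zero]
  congr 1
  by_cases h : j = v0
  · subst h; simp
  · rw [if_neg h, Pi.single_eq_of_ne (Ne.symm h), mul_zero]

theorem t_NB2 : S_NB2 := by
  intro V _ _ w L v0 hrow hw hw0
  constructor
  · intro hC z hz
    -- the right kernel
    have key : ∀ y : V → ZMod 2, (∀ i, ∑ j, L i j * y j + (if i = v0 then y v0 else 0) = 0) → y = 0 := by
      intro y hy
      have h1 : y v0 = 0 := by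
        have h2 : ∑ i, w i * (∑ j, L i j * y j + (if i = v0 then y v0 else 0)) = 0 :=
          sum_eq_zero fun i _ => by rw [hy i, mul_zero]
        have h3 : ∑ i, w i * (∑ j, L i j * y j + (if i = v0 then y v0 else 0)) =
            ∑ j, (∑ i, w i * L i j) * y j + w v0 * y v0 := by
          simp only [mul_add, sum_add_distrib]
          congr 1
          · simp only [mul_sum, sum_mul]
            rw [sum_comm]
            exact sum_congr rfl fun j _ => sum_congr rfl fun i _ => by ring
          · rw [sum_eq_single v0]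
            · rw [if_pos rfl]
            · intro i _ hi
              rw [if_neg hi, mul_zero]
            · intro h; exact absurd (mem_univ _) h
        rw [h3, hw0, one_mul] at h2
        rw [sum_eq_zero fun j _ => by rw [hw j, zero_mul], zero_add] at h2
        exact h2
      have h4 : ∀ i, ∑ j, L i j * y j = 0 := by
        intro i
        have := hy i
        rw [h1] at this
        simpa using this
      funext i
      rw [hC y h4 i v0, h1]
      rfl
    have hy : z.2 = 0 := by
      apply key
      intro i
      have h1 := hz (Pi.single i 1, 0)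
      rwa [bh_left] at h1
    -- the left kernel
    let N : Matrix V V (ZMod 2) := fun i j => L i j + if i = v0 ∧ j = v0 then 1 else 0
    have hN : ∀ y : V → ZMod 2, N.mulVec y = 0 → y = 0 := by
      intro y h
      apply key
      intro i
      have h1 : ∑ j, (L i j + if i = v0 ∧ j = v0 then 1 else 0) * y j = 0 := congrFun h i
      have h2 : ∑ j, (L i j + if i = v0 ∧ j = v0 then (1 : ZMod 2) else 0) * y j =
          ∑ j, L i j * y j + (if i = v0 then y v0 else 0) := by
        simp only [add_mul, sum_add_distrib]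
        congr 1
        by_cases hi : i = v0
        · rw [if_pos hi, sum_eq_single v0]
          · rw [if_pos ⟨hi, rfl⟩, one_mul]
          · intro j _ hj
            rw [if_neg (fun h => hj h.2), zero_mul]
          · intro h; exact absurd (mem_univ _) h
        · rw [if_neg hi]
          exact sum_eq_zero fun j _ => by rw [if_neg (fun h => hi h.1), zero_mul]
      rw [← h2]; exact h1
    have hdet : N.det ≠ 0 := by
      intro h
      obtain ⟨y, hy0, hy⟩ := Matrix.exists_mulVec_eq_zero_iff.2 h
      exact hy0 (hN y hy)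
    have hx : z.1 = 0 := by
      by_contra hx
      apply hdet
      refine Matrix.exists_vecMul_eq_zero_iff.1 ⟨z.1, hx, ?_⟩
      funext j
      have h1 := hz (0, Pi.single j 1)
      rw [bh_right] at h1
      have h2 : ∑ i, z.1 i * (L i j + if i = v0 ∧ j = v0 then (1 : ZMod 2) else 0) =
          ∑ i, z.1 i * L i j + (if j = v0 then z.1 v0 else 0) := by
        simp only [mul_add, sum_add_distrib]
        congr 1
        by_cases h : j = v0
        · rw [if_pos h, sum_eq_single v0]
          · rw [if_pos ⟨rfl, h⟩, mul_one]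
          · intro i _ hi
            rw [if_neg (fun h => hi h.1), mul_zero]
          · intro h; exact absurd (mem_univ _) h
        · rw [if_neg h]
          exact sum_eq_zero fun i _ => by rw [if_neg (fun h' => h h'.2), mul_zero]
      exact h2.trans h1
    exact Prod.ext hx hy
  · intro hz y hy
    have h1 : ((0 : V → ZMod 2), fun i => y i + y v0) = (0 : (V → ZMod 2) × (V → ZMod 2)) := by
      apply hz
      intro z'
      rw [bh_apply]
      have a2 : ∀ a : ZMod 2, a + a = 0 := by decide
      have e : ∑ i, ∑ j, L i j * (z'.1 i * (y j + y v0) + (0 : V → ZMod 2) i * z'.2 j) = 0 := by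
        refine sum_eq_zero fun i _ => ?_
        have e2 : ∑ j, L i j * (z'.1 i * (y j + y v0) + (0 : V → ZMod 2) i * z'.2 j) =
            z'.1 i * (∑ j, L i j * y j + y v0 * ∑ j, L i j) := by
          rw [mul_sum, ← sum_add_distrib, mul_sum]
          exact sum_congr rfl fun j _ => by rw [Pi.zero_apply]; ring
        rw [e2, hy i, hrow i, mul_zero, add_zero, mul_zero]
      dsimp only
      rw [e, a2, zero_mul, Pi.zero_apply, zero_mul, add_zero, add_zero]
    have h2 : ∀ i, y i + y v0 = 0 := fun i => congrFun (congrArg Prod.snd h1) i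
    have eqa : ∀ a b : ZMod 2, a + b = 0 → a = b := by decide
    intro i j
    rw [eqa _ _ (h2 i), eqa _ _ (h2 j)]

end Pool.Agent.H307.JXNB2
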